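import Pool.Agent.K1H73.ON.Stm

/-! Piece FLP of project ON (for helper73). -/

set_option autoImplicit false

namespace Pool.Agent.K1H74.ON

open Pool.Agent.K1H73.ON Finset

def Touch (ω : Finset (Sym2 V)) (v : V) : Prop := ∃ e ∈ ω, v ∈ e

lemma cor_mod (c : V) (j : ℕ) : cor c j = cor c (j % 6) := by
  unfold cor
  rw [Nat.mod_mod]

lemma side_mod (c : V) (j : ℕ) : side c j = side c (j % 6) := by
  unfold side
  rw [cor_mod c j, cor_mod c (j + 1), cor_mod c (j % 6 + 1),
    show (j % 6 + 1) % 6 = (j + 1) % 6 by omega]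

lemma cor_inj (c : V) (j k : ℕ) (hj : j < 6) (hk : k < 6) (h : cor c j = cor c k) : j = k := by
  obtain ⟨x, y⟩ := c
  interval_cases j <;> interval_cases k <;>
    first
    | rfl
    | (exfalso
       simp only [cor, Prod.mk.injEq] at h
       norm_num at h)

lemma cor_inj' (c : V) (j k : ℕ) (h : cor c j = cor c k) : j % 6 = k % 6 := by
  rw [cor_mod c j, cor_mod c k] at h
  exact cor_inj c _ _ (Nat.mod_lt _ (by norm_num)) (Nat.mod_lt _ (by norm_num)) h

lemma side_inj' (c : V) (j k : ℕ) (h : side c j = side c k) : j % 6 = k % 6 := by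
  unfold side at h
  rw [Sym2.eq_iff] at h
  rcases h with ⟨h1, h2⟩ | ⟨h1, h2⟩
  · exact cor_inj' c _ _ h1
  · have := cor_inj' c _ _ h1
    have := cor_inj' c _ _ h2
    omega

lemma mem_hex (c : V) (i : ℕ) (e : Sym2 V) : e ∈ hex c ↔
    e = side c i ∨ e = side c (i + 1) ∨ e = side c (i + 2) ∨ e = side c (i + 3) ∨
      e = side c (i + 4) ∨ e = side c (i + 5) := by
  unfold hex
  rw [mem_image]
  constructor
  · rintro ⟨j, hj, rfl⟩
    rw [mem_range] at hj
    have key : ∀ k, (i + k) % 6 = j → side c j = side c (i + k) := by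
      intro k hk
      rw [side_mod c (i + k), hk]
    have : (i + 0) % 6 = j ∨ (i + 1) % 6 = j ∨ (i + 2) % 6 = j ∨ (i + 3) % 6 = j ∨
        (i + 4) % 6 = j ∨ (i + 5) % 6 = j := by omega
    rcases this with h | h | h | h | h | h
    · exact Or.inl (key 0 h)
    · exact Or.inr (Or.inl (key 1 h))
    · exact Or.inr (Or.inr (Or.inl (key 2 h)))
    · exact Or.inr (Or.inr (Or.inr (Or.inl (key 3 h))))
    · exact Or.inr (Or.inr (Or.inr (Or.inr (Or.inl (key 4 h)))))
    · exact Or.inr (Or.inr (Or.inr (Or.inr (Or.inr (key 5 h)))))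
  · have key : ∀ k, ∃ j ∈ range 6, side c j = side c k := fun k =>
      ⟨k % 6, mem_range.2 (Nat.mod_lt _ (by norm_num)), (side_mod c k).symm⟩
    rintro (h | h | h | h | h | h) <;> rw [h] <;> exact key _

lemma conn_symm {ω : Finset (Sym2 V)} {u v : V} (h : Conn ω u v) : Conn ω v u :=
  SimpleGraph.Reachable.symm h

lemma conn_trans {ω : Finset (Sym2 V)} {u v w : V} (h : Conn ω u v) (h' : Conn ω v w) :
    Conn ω u w := SimpleGraph.Reachable.trans h h'

lemma conn_refl (ω : Finset (Sym2 V)) (u : V) : Conn ω u u := SimpleGraph.Reachable.refl _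

lemma conn_edge {ω : Finset (Sym2 V)} {u v : V} (h : s(u, v) ∈ ω) (hn : u ≠ v) : Conn ω u v :=
  SimpleGraph.Adj.reachable ((SimpleGraph.fromEdgeSet_adj _).2 ⟨h, hn⟩)

def LS (a : V) (ω : Finset (Sym2 V)) : Set (Set V) :=
  {C : Set V | ∃ v, (∃ e ∈ ω, v ∈ e) ∧ ¬ Conn ω a v ∧ C = {u | Conn ω v u}}

lemma class_eq {ω : Finset (Sym2 V)} {u v : V} (h : Conn ω u v) :
    {w | Conn ω u w} = {w | Conn ω v w} := by
  ext w
  exact ⟨fun h1 => conn_trans (conn_symm h) h1, fun h1 => conn_trans h h1⟩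

lemma inj_half (a : V) (ω : Finset (Sym2 V)) (P : V → Prop)
    (h1 : ∀ v, Touch ω v → ∃ u, P u ∧ Touch ω u ∧ Conn ω v u) :
    Set.InjOn (fun C : Set V => C ∩ {u | P u}) (LS a ω) := by
  rintro _ ⟨v, hv, hav, rfl⟩ _ ⟨w, hw, haw, rfl⟩ h
  obtain ⟨u, hPu, -, hvu⟩ := h1 v hv
  have h2 : u ∈ {x | Conn ω v x} ∩ {u | P u} := ⟨hvu, hPu⟩
  have h3 : u ∈ {x | Conn ω w x} ∩ {u | P u} := by
    have h4 := h
    simp only at h4
    rw [← h4]
    exact h2
  rw [class_eq hvu, class_eq (show Conn ω w u from h3.1)]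

lemma sub_half (a : V) (ω ω' : Finset (Sym2 V)) (P : V → Prop) (hPa : P a)
    (h0 : ∀ u v, P u → P v → (Conn ω u v ↔ Conn ω' u v))
    (ht : ∀ v, P v → (Touch ω v ↔ Touch ω' v))
    (h1 : ∀ v, Touch ω v → ∃ u, P u ∧ Touch ω u ∧ Conn ω v u) :
    (fun C : Set V => C ∩ {u | P u}) '' (LS a ω) ⊆
      (fun C : Set V => C ∩ {u | P u}) '' (LS a ω') := by
  rintro _ ⟨_, ⟨v, hv, hav, rfl⟩, rfl⟩
  obtain ⟨u, hPu, hTu, hvu⟩ := h1 v hv
  refine ⟨{x | Conn ω' u x}, ⟨u, (ht u hPu).1 hTu, fun hc => hav ?_, rfl⟩, ?_⟩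
  · exact conn_trans ((h0 a u hPa hPu).2 hc) (conn_symm hvu)
  · show {x | Conn ω' u x} ∩ {u | P u} = {x | Conn ω v x} ∩ {u | P u}
    rw [class_eq hvu]
    ext x
    exact ⟨fun hx => ⟨(h0 u x hPu hx.2).2 hx.1, hx.2⟩, fun hx => ⟨(h0 u x hPu hx.2).1 hx.1, hx.2⟩⟩

lemma loops_eq (a : V) (ω ω' : Finset (Sym2 V)) (P : V → Prop) (hPa : P a)
    (h0 : ∀ u v, P u → P v → (Conn ω u v ↔ Conn ω' u v))
    (ht : ∀ v, P v → (Touch ω v ↔ Touch ω' v))
    (h1 : ∀ v, Touch ω v → ∃ u, P u ∧ Touch ω u ∧ Conn ω v u)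
    (h2 : ∀ v, Touch ω' v → ∃ u, P u ∧ Touch ω' u ∧ Conn ω' v u) : loops a ω = loops a ω' := by
  show (LS a ω).ncard = (LS a ω').ncard
  rw [← Set.ncard_image_of_injOn (inj_half a ω P h1),
    ← Set.ncard_image_of_injOn (inj_half a ω' P h2)]
  congr 1
  exact Set.Subset.antisymm (sub_half a ω ω' P hPa h0 ht h1)
    (sub_half a ω' ω P hPa (fun u v hu hv => (h0 u v hu hv).symm) (fun v hv => (ht v hv).symm) h2)

lemma nbr_ne {p q : V} (h : Nbr p q) : p ≠ q := by
  rintro rfl
  unfold Nbr at h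
  rw [sub_self] at h
  rcases h with h | h | ⟨h, -⟩ | ⟨h, -⟩ <;> simp [Prod.ext_iff] at h

theorem t_FLP (h : RCH) : FLP := by
  intro a ω c i hi hc hω hA ha1 ha3 ha4 ha5 hd1 hd3 hd4 hd5
  obtain ⟨R0, A1, A2, A3, A4, A5, B1, B3, B4, B5⟩ := h ω c i hi hc hω hA hd1 hd3 hd4 hd5
  set w := symmDiff ω (hex c) with hw
  have hA' := hA
  unfold TyA at hA
  have mw : ∀ e, e ∈ w ↔ (e ∈ ω ∧ e ∉ hex c) ∨ (e ∈ hex c ∧ e ∉ ω) := by
    intro e
    rw [hw, mem_symmDiff]
  have hin : ∀ e, (e ∈ ω ∧ e ∈ hex c) ↔ e = side c i ∨ e = side c (i + 1) := by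
    intro e
    rw [← mem_inter, hA, mem_insert, mem_singleton]
  -- the sides are distinct
  have sne : ∀ j k, j < 6 → k < 6 → j ≠ k → side c (i + j) ≠ side c (i + k) := by
    intro j k hj hk hjk he
    have := side_inj' c _ _ he
    omega
  have hB : ∀ e, (e ∈ hex c ∧ e ∉ ω) ↔ e = side c (i + 2) ∨ e = side c (i + 3) ∨
      e = side c (i + 4) ∨ e = side c (i + 5) := by
    intro e
    constructor
    · rintro ⟨h1, h2⟩
      have h3 : ¬ (e = side c i ∨ e = side c (i + 1)) := fun h4 => h2 ((hin e).2 h4).1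
      rcases (mem_hex c i e).1 h1 with h | h | h | h | h | h
      · exact absurd (Or.inl h) h3
      · exact absurd (Or.inr h) h3
      · exact Or.inl h
      · exact Or.inr (Or.inl h)
      · exact Or.inr (Or.inr (Or.inl h))
      · exact Or.inr (Or.inr (Or.inr h))
    · intro h1
      have h2 : e ∈ hex c := (mem_hex c i e).2 (Or.inr (Or.inr h1))
      refine ⟨h2, fun h3 => ?_⟩
      have h4 := (hin e).1 ⟨h3, h2⟩
      rcases h4 with h4 | h4 <;> rcases h1 with h1 | h1 | h1 | h1 <;> rw [h1] at h4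
      · exact sne 2 0 (by norm_num) (by norm_num) (by norm_num) h4
      · exact sne 3 0 (by norm_num) (by norm_num) (by norm_num) h4
      · exact sne 4 0 (by norm_num) (by norm_num) (by norm_num) h4
      · exact sne 5 0 (by norm_num) (by norm_num) (by norm_num) h4
      · exact sne 2 1 (by norm_num) (by norm_num) (by norm_num) h4
      · exact sne 3 1 (by norm_num) (by norm_num) (by norm_num) h4
      · exact sne 4 1 (by norm_num) (by norm_num) (by norm_num) h4
      · exact sne 5 1 (by norm_num) (by norm_num) (by norm_num) h4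
  have hcap : w ∩ hex c = {side c (i + 2), side c (i + 3), side c (i + 4), side c (i + 5)} := by
    ext e
    rw [mem_inter, mw]
    simp only [mem_insert, mem_singleton]
    rw [← hB e]
    tauto
  have hsd : w \ hex c = ω \ hex c := by
    ext e
    rw [mem_sdiff, mem_sdiff, mw]
    tauto
  have c2 : (ω ∩ hex c).card = 2 := by
    rw [hA]
    exact card_pair (sne 0 1 (by norm_num) (by norm_num) (by norm_num))
  have c4 : (w ∩ hex c).card = 4 := by
    rw [hcap, card_insert_of_notMem, card_insert_of_notMem, card_pair]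
    · exact sne 4 5 (by norm_num) (by norm_num) (by norm_num)
    · simp only [mem_insert, mem_singleton, not_or]
      exact ⟨sne 3 4 (by norm_num) (by norm_num) (by norm_num),
        sne 3 5 (by norm_num) (by norm_num) (by norm_num)⟩
    · simp only [mem_insert, mem_singleton, not_or]
      exact ⟨sne 2 3 (by norm_num) (by norm_num) (by norm_num),
        sne 2 4 (by norm_num) (by norm_num) (by norm_num),
        sne 2 5 (by norm_num) (by norm_num) (by norm_num)⟩
  have hcard : w.card = ω.card + 2 := by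
    have h1 := card_sdiff_add_card_inter w (hex c)
    have h2 := card_sdiff_add_card_inter ω (hex c)
    rw [hsd] at h1
    omega
  -- membership of corners in sides
  have cside : ∀ j (v : V), v ∈ side c j ↔ v = cor c j ∨ v = cor c (j + 1) := by
    intro j v
    unfold side
    rw [Sym2.mem_iff]
  have c6 : cor c (i + 5 + 1) = cor c i := by
    rw [cor_mod c (i + 5 + 1), cor_mod c i]
    congr 1
    omega
  have s0 : side c i ∈ ω := ((hin _).2 (Or.inl rfl)).1
  have s1 : side c (i + 1) ∈ ω := ((hin _).2 (Or.inr rfl)).1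
  have s2 : side c (i + 2) ∈ w := (mw _).2 (Or.inr ((hB _).2 (Or.inl rfl)))
  have s5 : side c (i + 5) ∈ w := (mw _).2 (Or.inr ((hB _).2 (Or.inr (Or.inr (Or.inr rfl)))))
  -- degree zero
  have dz : ∀ v, deg ω v = 0 → ∀ e ∈ ω, v ∉ e := by
    intro v hv e he hve
    unfold deg at hv
    rw [card_eq_zero] at hv
    have : e ∈ (ω.filter (fun e => v ∈ e)) := mem_filter.2 ⟨he, hve⟩
    simp only [filter_eq_empty_iff] at hv
    exact hv he hve
  -- the edges of w are not loops
  have hnl : ∀ e ∈ w, ∀ v ∈ e, ∃ u, u ≠ v ∧ e = s(v, u) := by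
    intro e he v hv
    have h1 : ∃ p q : V, e = s(p, q) ∧ p ≠ q := by
      rcases (mw e).1 he with ⟨h1, -⟩ | ⟨h1, -⟩
      · obtain ⟨p, q, h2, h3⟩ := hω e h1
        exact ⟨p, q, h2, nbr_ne h3⟩
      · unfold hex at h1
        obtain ⟨j, -, rfl⟩ := mem_image.1 h1
        refine ⟨cor c j, cor c (j + 1), rfl, fun h3 => ?_⟩
        have := cor_inj' c _ _ h3
        omega
    obtain ⟨p, q, rfl, hpq⟩ := h1
    rw [Sym2.mem_iff] at hv
    rcases hv with rfl | rfl
    · exact ⟨q, hpq.symm, rfl⟩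
    · exact ⟨p, hpq, Sym2.eq_swap⟩
  have t1 : ∀ e ∈ w, cor c (i + 1) ∉ e := by
    intro e he hv
    obtain ⟨u, hu, rfl⟩ := hnl e he _ hv
    exact hu (B1 u (conn_edge he hu.symm))
  set P : V → Prop := fun v => v ≠ cor c (i + 1) ∧ v ≠ cor c (i + 3) ∧ v ≠ cor c (i + 4) ∧
    v ≠ cor c (i + 5) with hP
  have hPa : P a := ⟨ha1, ha3, ha4, ha5⟩
  have hP0 : P (cor c i) := by
    refine ⟨fun h => ?_, fun h => ?_, fun h => ?_, fun h => ?_⟩ <;>
      · have := cor_inj' c _ _ h
        omega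
  have hP2 : P (cor c (i + 2)) := by
    refine ⟨fun h => ?_, fun h => ?_, fun h => ?_, fun h => ?_⟩ <;>
      · have := cor_inj' c _ _ h
        omega
  have tω0 : Touch ω (cor c i) := ⟨_, s0, (cside _ _).2 (Or.inl rfl)⟩
  have tω2 : Touch ω (cor c (i + 2)) := ⟨_, s1, (cside _ _).2 (Or.inr rfl)⟩
  have tw0 : Touch w (cor c i) := ⟨_, s5, (cside _ _).2 (Or.inr c6.symm)⟩
  have tw2 : Touch w (cor c (i + 2)) := ⟨_, s2, (cside _ _).2 (Or.inl rfl)⟩
  have ht : ∀ v, P v → (Touch ω v ↔ Touch w v) := by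
    intro v hv
    obtain ⟨v1, v3, v4, v5⟩ := hv
    constructor
    · rintro ⟨e, he, hve⟩
      by_cases heh : e ∈ hex c
      · rcases (hin e).1 ⟨he, heh⟩ with rfl | rfl
        · rcases (cside _ _).1 hve with rfl | rfl
          · exact tw0
          · exact absurd rfl v1
        · rcases (cside _ _).1 hve with rfl | rfl
          · exact absurd rfl v1
          · exact tw2
      · exact ⟨e, (mw e).2 (Or.inl ⟨he, heh⟩), hve⟩
    · rintro ⟨e, he, hve⟩
      rcases (mw e).1 he with ⟨h1, -⟩ | h1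
      · exact ⟨e, h1, hve⟩
      · rcases (hB e).1 h1 with rfl | rfl | rfl | rfl
        · rcases (cside _ _).1 hve with rfl | rfl
          · exact tω2
          · exact absurd rfl v3
        · rcases (cside _ _).1 hve with rfl | rfl
          · exact absurd rfl v3
          · exact absurd rfl v4
        · rcases (cside _ _).1 hve with rfl | rfl
          · exact absurd rfl v4
          · exact absurd rfl v5
        · rcases (cside _ _).1 hve with rfl | rfl
          · exact absurd rfl v5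
          · rw [c6]
            exact tω0
  have hcases : ∀ v, P v ∨ v = cor c (i + 1) ∨ v = cor c (i + 3) ∨ v = cor c (i + 4) ∨
      v = cor c (i + 5) := by
    intro v
    by_contra hcon
    push Not at hcon
    exact hcon.1 ⟨hcon.2.1, hcon.2.2.1, hcon.2.2.2.1, hcon.2.2.2.2⟩
  have h1 : ∀ v, Touch ω v → ∃ u, P u ∧ Touch ω u ∧ Conn ω v u := by
    intro v hv
    rcases hcases v with h | rfl | rfl | rfl | rfl
    · exact ⟨v, h, hv, conn_refl _ _⟩
    · exact ⟨cor c i, hP0, tω0, conn_symm A1⟩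
    · obtain ⟨e, he, hve⟩ := hv
      exact absurd hve (dz _ hd3 e he)
    · obtain ⟨e, he, hve⟩ := hv
      exact absurd hve (dz _ hd4 e he)
    · obtain ⟨e, he, hve⟩ := hv
      exact absurd hve (dz _ hd5 e he)
  have h2 : ∀ v, Touch w v → ∃ u, P u ∧ Touch w u ∧ Conn w v u := by
    intro v hv
    rcases hcases v with h | rfl | rfl | rfl | rfl
    · exact ⟨v, h, hv, conn_refl _ _⟩
    · obtain ⟨e, he, hve⟩ := hv
      exact absurd hve (t1 e he)
    · exact ⟨cor c i, hP0, tw0, conn_symm B3⟩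
    · exact ⟨cor c i, hP0, tw0, conn_symm B4⟩
    · exact ⟨cor c i, hP0, tw0, conn_symm B5⟩
  refine ⟨hcap, hcard, (loops_eq a ω w P hPa R0 ht h1 h2).symm, fun hai => ?_⟩
  have hai' : Conn w a (cor c i) := (R0 _ _ hPa hP0).1 hai
  refine ⟨?_, hai'⟩
  have key : ∀ e ∈ ω \ hex c, ((∃ v ∈ e, Conn ω a v) ↔ (∃ v ∈ e, Conn w a v)) := by
    intro e he
    rw [mem_sdiff] at he
    have hew : e ∈ w := (mw e).2 (Or.inl he)
    have hall : ∀ v ∈ e, P v := by
      intro v hv
      rcases hcases v with h | rfl | rfl | rfl | rfl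
      · exact h
      · exact absurd hv (t1 e hew)
      · exact absurd hv (dz _ hd3 e he.1)
      · exact absurd hv (dz _ hd4 e he.1)
      · exact absurd hv (dz _ hd5 e he.1)
    constructor
    · rintro ⟨v, hv, h3⟩
      exact ⟨v, hv, (R0 _ _ hPa (hall v hv)).1 h3⟩
    · rintro ⟨v, hv, h3⟩
      exact ⟨v, hv, (R0 _ _ hPa (hall v hv)).2 h3⟩
  classical
  have split : ∀ (u : Finset (Sym2 V)) (p : Sym2 V → Prop), (u.filter p).card =
      ((u \ hex c).filter p).card + ((u ∩ hex c).filter p).card := by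
    intro u p
    rw [← card_union_of_disjoint, ← filter_union, sdiff_union_inter]
    exact disjoint_filter_filter (disjoint_sdiff_inter u (hex c))
  have e1 : len a ω = (ω.filter (fun e => ∃ v ∈ e, Conn ω a v)).card := by
    unfold len
    congr
  have e2 : len a w = (w.filter (fun e => ∃ v ∈ e, Conn w a v)).card := by
    unfold len
    congr
  rw [e1, e2, split w, split ω, hsd, filter_congr key]
  have f1 : (ω ∩ hex c).filter (fun e => ∃ v ∈ e, Conn ω a v) = ω ∩ hex c := by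
    rw [filter_eq_self]
    intro e he
    rcases (hin e).1 (mem_inter.1 he) with rfl | rfl
    · exact ⟨cor c i, (cside _ _).2 (Or.inl rfl), hai⟩
    · exact ⟨cor c (i + 2), (cside _ _).2 (Or.inr rfl), conn_trans hai A2⟩
  have f2 : (w ∩ hex c).filter (fun e => ∃ v ∈ e, Conn w a v) = w ∩ hex c := by
    rw [filter_eq_self]
    intro e he
    rw [hcap] at he
    simp only [mem_insert, mem_singleton] at he
    rcases he with rfl | rfl | rfl | rfl
    · exact ⟨cor c (i + 3), (cside _ _).2 (Or.inr rfl), conn_trans hai' B3⟩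
    · exact ⟨cor c (i + 3), (cside _ _).2 (Or.inl rfl), conn_trans hai' B3⟩
    · exact ⟨cor c (i + 4), (cside _ _).2 (Or.inl rfl), conn_trans hai' B4⟩
    · exact ⟨cor c (i + 5), (cside _ _).2 (Or.inl rfl), conn_trans hai' B5⟩
  rw [f1, f2, c2, c4]

end Pool.Agent.K1H74.ON
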